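import Mathlib

namespace Pool.Agent.Results.MP_22e672_co.Cube

open Set

/-- A face of `P`: `P` itself or its intersection with a supporting hyperplane. -/
def IsFace {d : ℕ} (P F : Set (EuclideanSpace ℝ (Fin d))) : Prop :=
  F = P ∨ ∃ (l : EuclideanSpace ℝ (Fin d) →ₗ[ℝ] ℝ) (c : ℝ), l ≠ 0 ∧ (∀ x ∈ P, l x ≤ c) ∧
    (∃ x ∈ P, l x = c) ∧ F = P ∩ {x | l x = c}

/-- Boundary points of `P` lying in no `i`-dimensional face. -/
def X {d : ℕ} (i : ℕ) (P : Set (EuclideanSpace ℝ (Fin d))) : Set (EuclideanSpace ℝ (Fin d)) :=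
  {b | b ∈ frontier P ∧
    ¬ ∃ F, IsFace P F ∧ Module.finrank ℝ (affineSpan ℝ F).direction = i ∧ b ∈ F}

/-- The source `s` illuminates the point `b` of `P`. -/
def Illuminates {d : ℕ} (P : Set (EuclideanSpace ℝ (Fin d))) (s b : EuclideanSpace ℝ (Fin d)) :
    Prop :=
  (∃ t : ℝ, 0 ≤ t ∧ s + t • (b - s) ∈ interior P) ∧ ∀ x ∈ segment ℝ s b, x ∈ P → x = b

abbrev E := EuclideanSpace ℝ (Fin 4)

open scoped Classical in
noncomputable def V : Finset E :=
  (Fintype.piFinset fun _ : Fin 4 => ({-1, 1} : Finset ℝ)).image (WithLp.toLp 2)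

lemma mem_P (x : E) : x ∈ convexHull ℝ (V : Set E) ↔ ∀ i, x i ∈ Icc (-1 : ℝ) 1 := by
  classical
  have h1 : (V : Set E) = (WithLp.linearEquiv 2 ℝ (Fin 4 → ℝ)).symm.toLinearMap ''
      (univ.pi fun _ : Fin 4 => ({-1, 1} : Set ℝ)) := by
    ext y
    simp [V]
  rw [h1, ← LinearMap.image_convexHull, convexHull_pi, convexHull_pair,
    segment_eq_Icc (by norm_num)]
  constructor
  · rintro ⟨y, hy, rfl⟩ i
    exact hy i (mem_univ _)
  · intro h
    exact ⟨x.ofLp, fun i _ => h i, rfl⟩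

lemma int_lt {y : E} (hy : y ∈ interior (convexHull ℝ (V : Set E))) (i : Fin 4) (e : ℝ)
    (he : e = 1 ∨ e = -1) : e * y i < 1 := by
  obtain ⟨δ, hδ, hb⟩ := Metric.mem_nhds_iff.1 (mem_interior_iff_mem_nhds.1 hy)
  have hm : y + EuclideanSpace.single i (e * (δ / 2)) ∈ Metric.ball y δ := by
    rw [Metric.mem_ball, dist_eq_norm, add_sub_cancel_left, PiLp.norm_single]
    rcases he with rfl | rfl
    · rw [one_mul, Real.norm_eq_abs, abs_of_pos (by linarith)]; linarith
    · rw [Real.norm_eq_abs, neg_one_mul, abs_neg, abs_of_pos (by linarith)]; linarith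
  have := (mem_P _).1 (hb hm) i
  simp only [PiLp.add_apply, PiLp.single_apply, if_true, mem_Icc] at this
  rcases he with rfl | rfl <;> nlinarith [this.1, this.2]

lemma zero_int : (0 : E) ∈ interior (convexHull ℝ (V : Set E)) := by
  rw [mem_interior_iff_mem_nhds, Metric.mem_nhds_iff]
  refine ⟨1, one_pos, fun y hy => (mem_P y).2 fun i => ?_⟩
  have h1 : ‖y i‖ ≤ ‖y‖ := PiLp.norm_apply_le y i
  rw [Metric.mem_ball, dist_zero_right] at hy
  rw [Real.norm_eq_abs] at h1
  exact abs_le.1 (h1.trans hy.le)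

/-- centre of a two-dimensional face -/
noncomputable def B (i j : Fin 4) (e f : ℝ) : E :=
  EuclideanSpace.single i e + EuclideanSpace.single j f

lemma two_le {F : Set E} {b : E} {k l : Fin 4} (hkl : k ≠ l) (hb : b ∈ F)
    (hk : b + EuclideanSpace.single k 1 ∈ F) (hl : b + EuclideanSpace.single l 1 ∈ F) :
    Module.finrank ℝ (affineSpan ℝ F).direction ≠ 1 := by
  intro h
  have m1 : (EuclideanSpace.single k (1 : ℝ) : E) ∈ (affineSpan ℝ F).direction := by
    have := AffineSubspace.vsub_mem_direction (subset_affineSpan ℝ F hk) (subset_affineSpan ℝ F hb)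
    simpa using this
  have m2 : (EuclideanSpace.single l (1 : ℝ) : E) ∈ (affineSpan ℝ F).direction := by
    have := AffineSubspace.vsub_mem_direction (subset_affineSpan ℝ F hl) (subset_affineSpan ℝ F hb)
    simpa using this
  have hne : (⟨_, m1⟩ : (affineSpan ℝ F).direction) ≠ 0 := by
    intro h0
    have := congrArg (fun v : (affineSpan ℝ F).direction => (v : E) k) h0
    simp at this
  obtain ⟨c, hc⟩ := (finrank_eq_one_iff_of_nonzero' _ hne).1 h ⟨_, m2⟩
  have := congrArg (fun v : (affineSpan ℝ F).direction => (v : E) l) hc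
  simp [hkl.symm] at this

lemma B_mem {i j : Fin 4} (hij : i ≠ j) {e f : ℝ} (he : e = 1 ∨ e = -1) (hf : f = 1 ∨ f = -1)
    (k : Fin 4) (hki : k ≠ i) (hkj : k ≠ j) (g : ℝ) (hg : g ∈ Icc (-1 : ℝ) 1) :
    B i j e f + EuclideanSpace.single k g ∈ convexHull ℝ (V : Set E) := by
  rw [mem_P]
  intro a
  simp only [B, PiLp.add_apply, PiLp.single_apply]
  have he' : e ∈ Icc (-1 : ℝ) 1 := by rcases he with rfl | rfl <;> norm_num
  have hf' : f ∈ Icc (-1 : ℝ) 1 := by rcases hf with rfl | rfl <;> norm_num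
  by_cases h1 : a = i
  · subst h1; simpa [hij, hki.symm] using he'
  · by_cases h2 : a = j
    · subst h2; simpa [h1, hkj.symm] using hf'
    · by_cases h3 : a = k
      · subst h3; simpa [h1, h2] using hg
      · simp [h1, h2, h3]

lemma other : ∀ i j : Fin 4, i ≠ j → ∃ k l : Fin 4, k ≠ l ∧ k ≠ i ∧ k ≠ j ∧ l ≠ i ∧ l ≠ j := by
  decide

lemma B_X {i j : Fin 4} (hij : i ≠ j) {e f : ℝ} (he : e = 1 ∨ e = -1) (hf : f = 1 ∨ f = -1) :
    B i j e f ∈ X 1 (convexHull ℝ (V : Set E)) := by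
  obtain ⟨k, l, hkl, hki, hkj, hli, hlj⟩ := other i j hij
  have hB : B i j e f ∈ convexHull ℝ (V : Set E) := by
    have e0 : (EuclideanSpace.single k (0 : ℝ) : E) = 0 := by
      ext a; simp
    have := B_mem hij he hf k hki hkj 0 (by norm_num)
    rwa [e0, add_zero] at this
  refine ⟨⟨subset_closure hB, fun hI => ?_⟩, ?_⟩
  · have := int_lt hI i e he
    simp only [B, PiLp.add_apply, PiLp.single_apply, if_true, hij, if_false] at this
    rcases he with rfl | rfl <;> norm_num at this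
  · rintro ⟨F, hF, hd, hb⟩
    have key : ∀ k, k ≠ i → k ≠ j → B i j e f + EuclideanSpace.single k 1 ∈ F := by
      intro k hki hkj
      have p1 := B_mem hij he hf k hki hkj 1 (by norm_num)
      have p2 := B_mem hij he hf k hki hkj (-1) (by norm_num)
      rcases hF with rfl | ⟨L, c, -, hle, -, rfl⟩
      · exact p1
      · refine ⟨p1, ?_⟩
        have q1 := hle _ p1
        have q2 := hle _ p2
        have q0 : L (B i j e f) = c := hb.2
        have e2 : (EuclideanSpace.single k (-1 : ℝ) : E) = -EuclideanSpace.single k 1 := by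
          ext a; simp only [PiLp.single_apply, PiLp.neg_apply]; split_ifs <;> simp
        rw [e2] at q2
        simp only [map_add, map_neg] at q1 q2
        show L _ = c
        rw [map_add]; linarith
    exact two_le hkl hb (key k hki hkj) (key l hli hlj) hd

lemma illum_sign {s b : E} (hb : b ∉ interior (convexHull ℝ (V : Set E)))
    (h : Illuminates (convexHull ℝ (V : Set E)) s b) (i : Fin 4) (e : ℝ) (he : e = 1 ∨ e = -1)
    (hbi : b i = e) : 0 < e * s i := by
  obtain ⟨⟨t, ht, hI⟩, hs⟩ := h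
  have h1 : 1 < t := by
    by_contra hle
    push Not at hle
    have hm : s + t • (b - s) ∈ segment ℝ s b := by
      rw [segment_eq_image']
      exact ⟨t, ⟨ht, hle⟩, rfl⟩
    have := hs _ hm (interior_subset hI)
    exact hb (this ▸ hI)
  have := int_lt hI i e he
  simp only [PiLp.add_apply, PiLp.smul_apply, PiLp.sub_apply, smul_eq_mul, hbi] at this
  rcases he with rfl | rfl <;> nlinarith

set_option synthInstance.maxSize 2000 in
lemma comb (g : Fin 4 → Fin 4 → Bool)
    (h : ∀ i j : Fin 4, i ≠ j → ∀ x y : Bool, ∃ a, g a i = x ∧ g a j = y) : False := by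
  have h' : ∀ (r0 r1 r2 r3 : Fin 16), ¬ (∀ i j : Fin 4, i ≠ j → ∀ x y : Bool, ∃ a : Fin 4,
      (![r0, r1, r2, r3] i).val.testBit a = x ∧ (![r0, r1, r2, r3] j).val.testBit a = y) := by
    have k : ∀ (r0 r1 : Fin 16), (∀ x y : Bool, ∃ a : Fin 4, r0.val.testBit a = x ∧
        r1.val.testBit a = y) → ∀ r2 : Fin 16, (∀ x y : Bool, ∃ a : Fin 4, r0.val.testBit a = x ∧
        r2.val.testBit a = y) → (∀ x y : Bool, ∃ a : Fin 4, r1.val.testBit a = x ∧
        r2.val.testBit a = y) → ∀ r3 : Fin 16, (∀ x y : Bool, ∃ a : Fin 4, r0.val.testBit a = x ∧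
        r3.val.testBit a = y) → (∀ x y : Bool, ∃ a : Fin 4, r1.val.testBit a = x ∧
        r3.val.testBit a = y) → ¬ (∀ x y : Bool, ∃ a : Fin 4, r2.val.testBit a = x ∧
        r3.val.testBit a = y) := by decide +kernel
    intro r0 r1 r2 r3 H
    exact k r0 r1 (H 0 1 (by decide)) r2 (H 0 2 (by decide)) (H 1 2 (by decide)) r3
      (H 0 3 (by decide)) (H 1 3 (by decide)) (H 2 3 (by decide))
  have enc : ∀ c : Fin 4 → Bool, ∃ r : Fin 16, ∀ a : Fin 4, r.val.testBit a = c a := by
    decide +kernel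
  choose r hr using fun i => enc (fun a => g a i)
  refine h' (r 0) (r 1) (r 2) (r 3) fun i j hij x y => ?_
  have e : ∀ i : Fin 4, ![r 0, r 1, r 2, r 3] i = r i := by
    intro i; fin_cases i <;> rfl
  obtain ⟨a, h1, h2⟩ := h i j hij x y
  exact ⟨a, by rw [e, hr, h1], by rw [e, hr, h2]⟩

theorem result :
    ¬ ∀ (d i : ℕ), 2 ≤ d → i ≤ d - 1 →
      ∀ W : Finset (EuclideanSpace ℝ (Fin d)),
        (interior (convexHull ℝ (W : Set (EuclideanSpace ℝ (Fin d))))).Nonempty →
        ∃ S : Finset (EuclideanSpace ℝ (Fin d)), S.card ≤ 2 ^ (d - 1 - i) ∧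
          (∀ s ∈ S, s ∉ convexHull ℝ (W : Set (EuclideanSpace ℝ (Fin d)))) ∧
          ∀ b ∈ X i (convexHull ℝ (W : Set (EuclideanSpace ℝ (Fin d)))),
            ∃ s ∈ S, Illuminates (convexHull ℝ (W : Set (EuclideanSpace ℝ (Fin d)))) s b := by
  intro h
  obtain ⟨S, hS, -, hI⟩ := h 4 1 (by norm_num) (by norm_num) V ⟨0, zero_int⟩
  have hS4 : S.card ≤ Fintype.card (Fin 4) := by simpa using hS
  obtain ⟨u, hu⟩ : ∃ u : Fin 4 → E, ∀ s ∈ S, ∃ a, u a = s := by
    classical
    obtain ⟨f⟩ : Nonempty (S ↪ Fin 4) := Function.Embedding.nonempty_of_card_le (by simpa using hS4)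
    refine ⟨fun a => if h : ∃ s, f s = a then (h.choose : E) else 0, fun s hs => ⟨f ⟨s, hs⟩, ?_⟩⟩
    have hex : ∃ s', f s' = f ⟨s, hs⟩ := ⟨_, rfl⟩
    simp only [hex, dif_pos]
    rw [f.injective hex.choose_spec]
  refine comb (fun a i => decide (0 < u a i)) fun i j hij x y => ?_
  have hx : (if x then (1 : ℝ) else -1) = 1 ∨ (if x then (1 : ℝ) else -1) = -1 := by
    cases x <;> simp
  have hy : (if y then (1 : ℝ) else -1) = 1 ∨ (if y then (1 : ℝ) else -1) = -1 := by
    cases y <;> simp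
  have hX := B_X hij hx hy
  obtain ⟨s, hs, hil⟩ := hI _ hX
  obtain ⟨a, rfl⟩ := hu s hs
  have s1 := illum_sign hX.1.2 hil i _ hx (by simp [B, hij])
  have s2 := illum_sign hX.1.2 hil j _ hy (by simp [B, hij.symm])
  refine ⟨a, ?_, ?_⟩
  · cases x
    · simp only [Bool.false_eq_true, if_false] at s1
      simp only [decide_eq_false_iff_not, not_lt]; linarith
    · simpa using s1
  · cases y
    · simp only [Bool.false_eq_true, if_false] at s2
      simp only [decide_eq_false_iff_not, not_lt]; linarith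
    · simpa using s2

end Pool.Agent.Results.MP_22e672_co.Cube
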